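import Pool.Agent.MP_ee8c61_ag.N3CH.Spec

/-! One model that carries the moving parts on all cells. -/

namespace Pool.Agent.MP_ee8c61_ag.N3.M3CH

open Pool.Agent.MP_ee8c61_ag.M3 Pool.Agent.MP_ee8c61_ag.M3CH

set_option linter.unusedSectionVars false

variable [Base]

open M3 M3E M3FG Finset

namespace RMOD

section Cells

variable {J : Type} {Wl : Finset (Fm J)} {x d : J → ℚ}

theorem cell_nsmul (h : d ∈ Cell Wl x) (r : ℕ) : r • d ∈ Cell Wl x := fun w hw => by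
  rw [map_nsmul, nsmul_eq_mul, mul_left_comm]
  exact mul_nonneg (Nat.cast_nonneg r) (h w hw)

theorem cells_finite (Wl : Finset (Fm J)) : {C | ∃ x, Off Wl x ∧ Cell Wl x = C}.Finite := by
  classical
  refine ((Wl.powerset.finite_toSet).image fun S : Finset (Fm J) =>
    {d : J → ℚ | ∀ w ∈ Wl, (w ∈ S → 0 ≤ w d) ∧ (w ∉ S → w d ≤ 0)}).subset ?_
  rintro _ ⟨x, hx, rfl⟩
  refine ⟨Wl.filter fun w => 0 < w x, mem_coe.2 (mem_powerset.2 (filter_subset _ _)), ?_⟩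
  ext d
  refine forall₂_congr fun w hw => ?_
  rw [mem_filter, and_iff_right hw]
  rcases lt_or_gt_of_ne (hx w hw) with h | h
  · exact ⟨fun a => mul_nonneg_of_nonpos_of_nonpos h.le (a.2 h.not_gt),
      fun a => ⟨fun b => absurd b h.not_gt, fun _ => by
        by_contra hc
        exact absurd a (not_le.2 (mul_neg_of_neg_of_pos h (not_le.1 hc)))⟩⟩
  · exact ⟨fun a => mul_nonneg h.le (a.1 h),
      fun a => ⟨fun _ => nonneg_of_mul_nonneg_right a h, fun b => absurd h b⟩⟩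

/-- One finite set that contains generators of all cells. -/
theorem gens_all [Fintype J] (hC : StmtCELL) (Wl : Finset (Fm J)) : ∃ U : Finset (J → ℤ),
    ∀ x, Off Wl x → ∀ c, qq c ∈ Cell Wl x →
      c ∈ AddSubmonoid.closure {u | u ∈ U ∧ qq u ∈ Cell Wl x} := by
  classical
  have h1 : ∀ C : Set (J → ℚ), ∃ U : Finset (J → ℤ), (∃ x, Off Wl x ∧ Cell Wl x = C) →
      (∀ u ∈ U, qq u ∈ C) ∧ ∀ c, qq c ∈ C → c ∈ AddSubmonoid.closure (U : Set (J → ℤ)) := by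
    intro C
    by_cases h : ∃ x, Off Wl x ∧ Cell Wl x = C
    · obtain ⟨x, -, rfl⟩ := h
      obtain ⟨U, hU⟩ := hC J Wl x
      exact ⟨U, fun _ => hU⟩
    · exact ⟨∅, fun h' => absurd h' h⟩
  choose U hU using h1
  refine ⟨(cells_finite Wl).toFinset.biUnion U, fun x hx c hc => ?_⟩
  obtain ⟨a, b⟩ := hU _ ⟨x, hx, rfl⟩
  refine AddSubmonoid.closure_mono ?_ (b c hc)
  intro u hu
  exact ⟨mem_biUnion.2 ⟨_, (Set.Finite.mem_toFinset _).2 ⟨x, hx, rfl⟩, hu⟩, a u hu⟩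

theorem exists_den [Fintype J] (x : J → ℚ) : ∃ (n : ℕ) (c : J → ℤ), 0 < n ∧ qq c = n • x := by
  classical
  refine ⟨∏ j, (x j).den, fun j => (∏ i ∈ univ.erase j, ((x i).den : ℤ)) * (x j).num,
    prod_pos fun j _ => (x j).den_pos, funext fun j => ?_⟩
  rw [← prod_erase_mul _ _ (mem_univ j)]
  simp only [qq, Pi.smul_apply, nsmul_eq_mul]
  push_cast
  rw [mul_assoc, Rat.den_mul_eq_num]

end Cells

variable {N : ℕ} {f : Po N} {W M : Mod N}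

/-- The statement on one cell. -/
theorem core (hBM : Bas f M) (hBW : Bas f W) (hM : M.OK f) (hW : W.OK f) (hH : SH) (D : Dom W M)
    (hD : Dc D) (Γ : Gn M) (C : Set (M.J → ℚ)) (hCs : ∀ d ∈ C, ∀ r : ℕ, r • d ∈ C)
    (hReg : ∀ c, M.q c ∈ C → Γ.Reg c) (U : Finset (M.J → ℤ))
    (hU : ∀ c, M.q c ∈ C → c ∈ AddSubmonoid.closure {u | u ∈ U ∧ M.q u ∈ C}) (r : ℕ)
    (T : (M.J → ℤ) → Finset (KK N)) (hT : ∀ u, ∀ g ∈ T u, g ∈ M.H (r • u))
    (hG : ∀ u ∈ U, ∃ c, W.Gens c (T u)) (y : W.J → Fm M.J)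
    (ya : ∀ i, y i (M.q M.aa) = -(W.v i).v (ip N f))
    (yb : ∀ i c, Γ.Reg c → ∀ s ∈ M.H c, s ≠ 0 → y i (M.q c) ≤ (W.v i).v s)
    (yc : ∀ i, ∀ u ∈ U, M.q u ∈ C →
      ∃ g ∈ T u, g ≠ 0 ∧ ((W.v i).v g : ℚ) = y i (M.q (r • u))) :
    Mov M W r C (LinearMap.pi fun i => -y i) := by
  have hr : ∀ c, M.q c ∈ C → Γ.Reg (r • c) := fun c hc =>
    hReg _ (by rw [M.q_nsmul]; exact hCs _ hc r)
  refine ⟨funext fun i => ?_, fun c hc => ?_⟩
  · have h1 := ((hBW.gen_v i _ _).1 (hBW.gen_f _)).2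
    show -y i (M.q M.aa) = (W.aa i : ℚ)
    rw [ya, neg_neg, h1, Pi.neg_apply, neg_neg]
  have key : ∃ c', (∀ i, (c' i : ℚ) = -y i (M.q (r • c))) ∧ W.Free c' ∧ D.pf c' ≤ r • c := by
    refine AddSubmonoid.closure_induction (motive := fun c _ =>
      ∃ c' : W.J → ℤ, (∀ i, (c' i : ℚ) = -y i (M.q (r • c))) ∧ W.Free c' ∧ D.pf c' ≤ r • c)
      ?_ ?_ ?_ (hU c hc)
    · rintro u ⟨hu, huC⟩
      obtain ⟨c', hc'⟩ := hG u hu
      have h1 : ∀ i, (c' i : ℚ) = -y i (M.q (r • u)) := fun i => by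
        obtain ⟨g, hg, hg'⟩ := hc'.2 _ (hBW.ov_v i)
        obtain ⟨g0, g1⟩ := (hBW.gen_v i _ _).1 hg'
        have a := yb i _ (hr u huC) g (hT u g hg) g0
        obtain ⟨g', b0, b1, b2⟩ := yc i u hu huC
        have b3 := ((hBW.oc_v i _ _).1 (hc'.1 g' b0 _ (hBW.ov_v i))).resolve_left b1
        have b4 : ((-c' i : ℤ) : ℚ) ≤ (W.v i).v g' := Int.cast_le.2 b3
        rw [g1] at a
        rw [b2] at b4
        push_cast at a b4
        linarith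
      refine ⟨c', h1, ⟨_, hc'⟩, fun j => ?_⟩
      obtain ⟨g', b0, b1, b2⟩ := yc (D.e j) u hu huC
      have b3 := ((hBM.oc_v j _ _).1 (hT u g' b0 _ (hBM.ov_v j))).resolve_left b1
      have b4 : ((W.v (D.e j)).v g' : ℚ) = ((-c' (D.e j) : ℤ) : ℚ) := by
        rw [b2, Int.cast_neg, h1, neg_neg]
      rw [Int.cast_inj, D.v] at b4
      show c' (D.e j) ≤ (r • u) j
      omega
    · exact ⟨0, fun i => by simp [M.q_zero], hBW.free_zero, fun j => by simp [Dom.pf]⟩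
    · rintro a b - - ⟨a', a1, a2, a3⟩ ⟨b', b1, b2, b3⟩
      refine ⟨a' + b', fun i => ?_, hBW.free_add _ _ a2 b2, fun j => ?_⟩
      · rw [smul_add, M.q_add, map_add, Pi.add_apply, Int.cast_add, a1, b1, neg_add]
      · rw [smul_add]
        exact add_le_add (a3 j) (b3 j)
  obtain ⟨c', h1, h2, h3⟩ := key
  refine ⟨c', funext fun i => by simpa using h1 i, h2, Set.Subset.antisymm (fun s hs => ?_)
    fun s hs => ?_⟩
  · exact fun V hV => hBM.oc_mono V _ _ s (fun j _ => h3 j) (hD.push c' hs V hV)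
  · refine (hH N f W hW c' s).2 ⟨((hH N f M hM _ s).1 hs).1, fun i => ?_⟩
    by_cases h0 : s = 0
    · exact Or.inl h0
    have a := yb i _ (hr c hc) s hs h0
    have b : ((-c' i : ℤ) : ℚ) ≤ (W.v i).v s := by rwa [Int.cast_neg, h1, neg_neg]
    exact Or.inr (Int.cast_le.1 b)

end RMOD

theorem rowMOD : OfMOD := by
  classical
  intro hC hBas hH hDc hB1 hV N f M hM Γ
  obtain ⟨Wl0, h0, hW0⟩ := hV N f M hM Γ
  refine ⟨Wl0, h0, fun Wl hsub => ?_⟩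
  have hBM : Bas f M := hBas N f M hM
  obtain ⟨U, hU⟩ := RMOD.gens_all hC Wl
  obtain ⟨r, T, hr, hT, hy⟩ := hW0 U
  have h1 : ∀ u : M.J → ℤ, ∃ n : ℕ, ip N f ^ n ∈ M.H (r • u) := fun u =>
    (hBM.f_pow (r • u)).imp fun n hn => (hn n le_rfl).1
  choose n hn using h1
  have hT' : ∀ u, ∀ g ∈ insert (ip N f ^ n u) (T u), g ∈ M.H (r • u) := fun u g hg =>
    (mem_insert.1 hg).elim (fun e => e ▸ hn u) (hT u g)
  obtain ⟨W, hW, ⟨D⟩, hG⟩ := hB1 N f M hM U (fun u => insert (ip N f ^ n u) (T u))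
    (fun u => ⟨_, hT' u⟩) fun u => ⟨n u, mem_insert_self _ _⟩
  have hBW : Bas f W := hBas N f W hW
  have h2 : ∀ C : Set (M.J → ℚ), ∃ P : (M.J → ℚ) →ₗ[ℚ] (W.J → ℚ),
      (∃ x, Off Wl x ∧ Cell Wl x = C ∧ ∀ c, M.q c ∈ C → Γ.Reg c) → Mov M W r C P := by
    intro C
    by_cases h : ∃ x, Off Wl x ∧ Cell Wl x = C ∧ ∀ c, M.q c ∈ C → Γ.Reg c
    swap
    · exact ⟨0, fun h' => absurd h' h⟩
    obtain ⟨x, hx, rfl, hReg⟩ := h
    obtain ⟨m, c, hm, hc⟩ := RMOD.exists_den x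
    have hc' : M.q c = m • x := hc
    have h3 := fun i : W.J => hy x (hx.mono hsub)
      ⟨m, c, hm, by rw [hc', Nat.cast_smul_eq_nsmul],
        hReg c (hc' ▸ RMOD.cell_nsmul (Cell.self Wl x) m)⟩ (W.v i) (hBW.ov_v i)
    choose y ya yb yc using h3
    refine ⟨_, fun _ => RMOD.core hBM hBW hM hW hH D (hDc N f W M D hW hM) Γ _
      (fun d hd r => RMOD.cell_nsmul hd r) hReg U (hU x hx) r _ hT' (fun u hu => hG ⟨u, hu⟩) y ya yb
      fun i u hu huC => ?_⟩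
    obtain ⟨g, a, b⟩ := yc i u hu (Cell.mono hsub x huC)
    exact ⟨g, mem_insert_of_mem a, b⟩
  choose P hP using h2
  exact ⟨W, D, r, P, hW, hr, fun x hx hReg => hP _ ⟨x, hx, rfl, hReg⟩⟩

end Pool.Agent.MP_ee8c61_ag.N3.M3CH
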