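import Pool.Agent.MP_ee8c61_ag.N3CH.Spec

/-! The asymptotic value of a valuation is linear on cells. -/

namespace Pool.Agent.MP_ee8c61_ag.N3.M3CH

open Pool.Agent.MP_ee8c61_ag.M3 Pool.Agent.MP_ee8c61_ag.M3CH

set_option linter.unusedSectionVars false

variable [Base]

open M3 M3E M3FG Finset

namespace RVLP

theorem clear {ι : Type} [Fintype ι] (α : ι → ℚ) (τ : ℚ) (h : 0 ≤ α) :
    ∃ (n : ℕ) (β : ι → ℕ) (σ : ℤ), 0 < n ∧ (∀ i, (β i : ℚ) = n * α i) ∧ (σ : ℚ) = n * τ := by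
  have key : ∀ (x : ℚ) (n : ℕ), x.den ∣ n → ∃ z : ℤ, (z : ℚ) = n * x := by
    rintro x _ ⟨k, rfl⟩
    exact ⟨k * x.num, by push_cast; rw [mul_comm (x.den : ℚ), mul_assoc, Rat.den_mul_eq_num]⟩
  obtain ⟨σ, hσ⟩ := key τ (τ.den * ∏ i, (α i).den) (dvd_mul_right _ _)
  choose z hz using fun i => key (α i) (τ.den * ∏ i, (α i).den)
    ((dvd_prod_of_mem _ (mem_univ i)).mul_left _)
  refine ⟨_, fun i => (z i).toNat, σ, mul_pos τ.pos (prod_pos fun i _ => (α i).pos),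
    fun i => ?_, hσ⟩
  have h0 : 0 ≤ z i := by
    have : (0 : ℚ) ≤ z i := hz i ▸ mul_nonneg (Nat.cast_nonneg _) (h i)
    exact_mod_cast this
  rw [← hz i, ← Int.cast_natCast, Int.toNat_of_nonneg h0]

variable {N : ℕ} {f : Po N} {M : Mod N}

/-- A monomial in the family and in the polynomial. -/
noncomputable def mn (f : Po N) (Γ : Gn M) (β : Γ.ι → ℕ) (σ : ℤ) : KK N :=
  (∏ i, Γ.g i ^ β i) * ip N f ^ (-σ)

/-- The degree of a monomial. -/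
def dg (Γ : Gn M) (β : Γ.ι → ℕ) (σ : ℤ) : M.J → ℤ := ∑ i, β i • Γ.c i + σ • M.aa

theorem q_sum (Γ : Gn M) (β : Γ.ι → ℕ) :
    M.q (∑ i, β i • Γ.c i) = ∑ i, (β i : ℚ) • M.q (Γ.c i) := funext fun j => by
  simp [Finset.sum_apply]

theorem q_dg (Γ : Gn M) (β : Γ.ι → ℕ) (σ : ℤ) :
    M.q (dg Γ β σ) = ∑ i, (β i : ℚ) • M.q (Γ.c i) + (σ : ℚ) • M.q M.aa := by
  rw [dg, M.q_add, q_sum, M.q_zsmul]

theorem q_dg' (Γ : Gn M) {α : Γ.ι → ℚ} {τ : ℚ} {n : ℕ} {β : Γ.ι → ℕ} {σ : ℤ}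
    (h1 : ∀ i, (β i : ℚ) = n * α i) (h2 : (σ : ℚ) = n * τ) :
    M.q (dg Γ β σ) = n • (∑ i, α i • M.q (Γ.c i) + τ • M.q M.aa) := by
  rw [q_dg, ← Nat.cast_smul_eq_nsmul ℚ, smul_add, smul_sum, smul_smul, h2]
  simp only [h1, smul_smul]

theorem mn_mem (B : Bas f M) (Γ : Gn M) (β : Γ.ι → ℕ) (σ : ℤ) :
    mn f Γ β σ ∈ M.H (dg Γ β σ) := fun V hV => by
  classical
  refine B.oc_mul _ _ _ _ _ ?_ (B.gen_oc _ _ _ ?_)
  · have key : ∀ s : Finset Γ.ι, M.Oc V (∑ i ∈ s, β i • Γ.c i) (∏ i ∈ s, Γ.g i ^ β i) := by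
      intro s
      induction s using Finset.induction_on with
      | empty =>
        intro b _
        rw [sum_empty, prod_empty, B.mon_zero, one_mul]
        exact one_mem _
      | insert a s ha ih =>
        rw [sum_insert ha, prod_insert ha]
        exact B.oc_mul _ _ _ _ _ (B.oc_pow _ _ _ _ (Γ.mem a V hV)) ih
    exact key univ
  · obtain ⟨k, rfl | rfl⟩ := σ.eq_nat_or_neg
    · have := B.gen_inv _ _ _ (B.gen_pow _ _ _ k (B.gen_f V))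
      rwa [smul_neg, neg_neg, ← zpow_natCast, ← zpow_neg, ← natCast_zsmul] at this
    · have := B.gen_pow _ _ _ k (B.gen_f V)
      rwa [smul_neg, ← zpow_natCast, ← natCast_zsmul, ← neg_smul, ← neg_neg (k : ℤ),
        neg_neg (-(k : ℤ))] at this

theorem mn_ne (hf : ip N f ≠ 0) (Γ : Gn M) (β : Γ.ι → ℕ) (σ : ℤ) : mn f Γ β σ ≠ 0 :=
  mul_ne_zero (prod_ne_zero_iff.2 fun i _ => pow_ne_zero _ (Γ.ne i)) (zpow_ne_zero _ hf)

theorem v_mn (hf : ip N f ≠ 0) (Γ : Gn M) (β : Γ.ι → ℕ) (σ : ℤ) (v : DV (KK N)) :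
    (v.v (mn f Γ β σ) : ℚ) =
      ∑ i, (β i : ℚ) * v.v (Γ.g i) + (σ : ℚ) * (-(v.v (ip N f) : ℚ)) := by
  rw [mn, v.mul _ _ (prod_ne_zero_iff.2 fun i _ => pow_ne_zero _ (Γ.ne i)) (zpow_ne_zero _ hf),
    v.prod _ fun i _ => pow_ne_zero _ (Γ.ne i), v.zpow]
  simp only [v.pow]
  push_cast
  ring

/-- There is a monomial of degree `r • u` supported in `S`. -/
def Rp (Γ : Gn M) (u : M.J → ℤ) (S : Finset Γ.ι) (r : ℕ) : Prop :=
  ∃ p : (Γ.ι → ℕ) × ℤ, (∀ i ∉ S, p.1 i = 0) ∧ dg Γ p.1 p.2 = r • u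

theorem Rp.dvd {Γ : Gn M} {u : M.J → ℤ} {S : Finset Γ.ι} {n r : ℕ} (h : Rp Γ u S n)
    (hr : n ∣ r) : Rp Γ u S r := by
  obtain ⟨k, rfl⟩ := hr
  obtain ⟨⟨β, σ⟩, h1, h2⟩ := h
  refine ⟨(fun i => k * β i, k * σ), fun i hi => mul_eq_zero_of_right _ (h1 i hi), ?_⟩
  rw [mul_comm n, mul_smul, ← h2]
  simp only [dg, smul_add, smul_sum, mul_smul, natCast_zsmul]

theorem exists_r (Γ : Gn M) (U : Finset (M.J → ℤ)) : ∃ r : ℕ, 0 < r ∧ ∀ u ∈ U,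
    ∀ S : Finset Γ.ι, (∃ n, 0 < n ∧ Rp Γ u S n) → Rp Γ u S r := by
  classical
  have key : ∀ (u : M.J → ℤ) (S : Finset Γ.ι), ∃ n, 0 < n ∧
      ((∃ n, 0 < n ∧ Rp Γ u S n) → Rp Γ u S n) := fun u S => by
    by_cases h : ∃ n, 0 < n ∧ Rp Γ u S n
    · exact h.imp fun n hn => ⟨hn.1, fun _ => hn.2⟩
    · exact ⟨1, one_pos, fun h' => absurd h' h⟩
  choose n hn hn' using key
  exact ⟨∏ u ∈ U, ∏ S, n u S, prod_pos fun u _ => prod_pos fun S _ => hn u S,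
    fun u hu S h => (hn' u S h).dvd ((dvd_prod_of_mem _ (mem_univ S)).trans
      (dvd_prod_of_mem (fun u => ∏ S, n u S) hu))⟩

theorem exists_p (Γ : Gn M) (r : ℕ) : ∃ p : (M.J → ℤ) → Finset Γ.ι → (Γ.ι → ℕ) × ℤ,
    ∀ u S, Rp Γ u S r → (∀ i ∉ S, (p u S).1 i = 0) ∧ dg Γ (p u S).1 (p u S).2 = r • u := by
  classical
  exact ⟨fun u S => if h : Rp Γ u S r then Exists.choose h else (0, 0),
    fun u S h => by simp only [dif_pos h]; exact Exists.choose_spec h⟩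

end RVLP

open RVLP

theorem rowVLP : OfVLP := by
  classical
  intro hA hB N f M hM Γ
  have B := hB N f M hM
  obtain ⟨Wl, hW, hL⟩ := hA M.J Γ.ι (fun i => M.q (Γ.c i)) (M.q M.aa)
  refine ⟨Wl, hW, fun U => ?_⟩
  obtain ⟨r, hr, hR⟩ := exists_r Γ U
  obtain ⟨p, hp⟩ := exists_p Γ r
  refine ⟨r, fun u => (univ.filter fun S : Finset Γ.ι => Rp Γ u S r).image fun S =>
    mn f Γ (p u S).1 (p u S).2, hr, fun u g hg => ?_,
    fun x hx ⟨n, c, hn, hc, hreg⟩ v hv => ?_⟩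
  · obtain ⟨S, hS, rfl⟩ := mem_image.1 hg
    rw [← (hp u S (mem_filter.1 hS).2).2]
    exact mn_mem B Γ _ _
  obtain ⟨b, hb⟩ := hM.cov _ hv
  have hf : ip N f ≠ 0 := left_ne_zero_of_mul (B.gen_f v.O b hb).1
  obtain ⟨y, S, y1, y2, y3, y4⟩ := hL (fun i => v.v (Γ.g i)) (-(v.v (ip N f) : ℚ))
    (fun α τ h0 e => by
      obtain ⟨k, β, σ, hk, h1, h2⟩ := clear α τ h0
      have e1 : dg Γ β σ = 0 := M.q_inj (by rw [q_dg' Γ h1 h2, e, smul_zero, M.q_zero])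
      have e2 := mn_mem B Γ β σ v.O hv b hb
      rw [e1, B.mon_zero, mul_one] at e2
      have e3 : (0 : ℚ) ≤ v.v (mn f Γ β σ) := by
        exact_mod_cast e2.resolve_left (mn_ne hf Γ β σ)
      rw [v_mn hf, h2] at e3
      simp only [h1, mul_assoc] at e3
      rw [← mul_sum, ← mul_add] at e3
      exact nonneg_of_mul_nonneg_right e3 (by exact_mod_cast hk)) x hx (by
      obtain ⟨r0, h0⟩ := B.f_pow c
      obtain ⟨k, α, hk, h1, -⟩ := hreg _ (h0 r0 le_rfl).1 (pow_ne_zero _ hf) v hv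
      have h2 := congrArg M.q h1
      rw [q_sum, M.q_nsmul, hc, ← Nat.cast_smul_eq_nsmul ℚ, smul_smul] at h2
      have h3 : ((k : ℚ) * n) ≠ 0 := by positivity
      refine ⟨fun i => ((k : ℚ) * n)⁻¹ * α i, 0, fun i => by positivity, ?_⟩
      simp only [mul_smul, zero_smul, add_zero]
      rw [← smul_sum, h2, inv_smul_smul₀ h3])
  refine ⟨y, y1, fun c hc s hs h0 => ?_, fun u hu hcell => ?_⟩
  · obtain ⟨k, α, hk, h1, h2⟩ := hc s hs h0 v hv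
    have h3 : y (M.q (∑ i, α i • Γ.c i)) = y (M.q (k • c)) := by rw [h1]
    rw [q_sum, M.q_nsmul, map_sum, map_nsmul, nsmul_eq_mul] at h3
    simp only [map_smul, smul_eq_mul] at h3
    have h4 : ∑ i, (α i : ℚ) * v.v (Γ.g i) ≤ k * v.v s := by exact_mod_cast h2
    have h5 : (0 : ℚ) < k := by exact_mod_cast hk
    refine le_of_mul_le_mul_left ?_ h5
    rw [← h3]
    exact le_trans (sum_le_sum fun i _ =>
      mul_le_mul_of_nonneg_left (y2 i) (Nat.cast_nonneg _)) h4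
  · obtain ⟨α, τ, h0, h1, h2⟩ := y4 _ hcell
    obtain ⟨k, β, σ, hk, h3, h4⟩ := clear α τ h0
    have h : Rp Γ u S r := hR u hu S ⟨k, hk, (β, σ), fun i hi => by
      have := h3 i
      rw [h1 i hi, mul_zero] at this
      exact_mod_cast this, M.q_inj (by rw [q_dg' Γ h3 h4, ← h2, M.q_nsmul])⟩
    refine ⟨_, mem_image.2 ⟨S, mem_filter.2 ⟨mem_univ _, h⟩, rfl⟩, mn_ne hf _ _ _, ?_⟩
    rw [v_mn hf, ← (hp u S h).2, q_dg, map_add, map_sum, map_smul, y1, smul_eq_mul]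
    refine congrArg (· + _) (sum_congr rfl fun i _ => ?_)
    rw [map_smul, smul_eq_mul]
    by_cases hi : i ∈ S
    · rw [y3 i hi]
    · rw [(hp u S h).1 i hi, Nat.cast_zero, zero_mul, zero_mul]

end Pool.Agent.MP_ee8c61_ag.N3.M3CH
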