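import Pool.Agent.MP_ee8c61_ag.N3E.Spec
import Pool.Agent.MP_ee8c61_ag.M3FG.Sp
import Pool.Agent.MP_ee8c61_ag.M3CH.SpecP

/-!
Chambers along a segment: the statements. Every `OfX` is one task.
-/

namespace Pool.Agent.MP_ee8c61_ag.N3.M3CH

open Pool.Agent.MP_ee8c61_ag.M3 Pool.Agent.MP_ee8c61_ag.M3CH

set_option linter.unusedSectionVars false

variable [Base]

open M3 M3E M3FG Finset

noncomputable section

variable {N : ℕ}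

/-- A finite family of nonzero sections. -/
structure Gn (M : Mod N) where
  ι : Type
  fι : Fintype ι
  c : ι → M.J → ℤ
  g : ι → KK N
  ne : ∀ i, g i ≠ 0
  mem : ∀ i, g i ∈ M.H (c i)

attribute [instance] Gn.fι

/-- The values of the sections of `c` are bounded below by values of monomials in the family. -/
def Gn.Reg {M : Mod N} (Γ : Gn M) (c : M.J → ℤ) : Prop :=
  ∀ s ∈ M.H c, s ≠ 0 → ∀ v : DV (KK N), Ov v.O → ∃ (n : ℕ) (α : Γ.ι → ℕ), 0 < n ∧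
    ∑ i, α i • Γ.c i = n • c ∧ ∑ i, (α i : ℤ) * v.v (Γ.g i) ≤ n * v.v s

/-- The log canonical divisor. -/
def nu (M : Mod N) : M.J → ℚ := fun j => M.k j + 1

/-- Finite generation on a box, up to powers. -/
def SBOX : Prop := ∀ (f : Po 3) (M : Mod 3), M.OK f → ∀ A, M.AmpQ A →
  ∃ G : Finset ((M.J → ℤ) × KK 3), (∀ p ∈ G, p.2 ∈ M.H p.1) ∧
    ∀ (c : M.J → ℤ) (m r : ℚ) (be : M.J → ℚ), 0 ≤ m → (∀ j, m / 2 ≤ be j ∧ be j ≤ m) →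
      M.q c = m • (M.q M.kk + A) + be + r • M.q M.aa →
      ∀ g ∈ M.H c, ∃ n : ℕ, 0 < n ∧ Sp (G : Set ((M.J → ℤ) × KK 3)) (n • c) (g ^ n)

/-- The ample cone is open. -/
def SOPN : Prop := AllM fun _ M => ∀ A, M.AmpQ A → ∃ γ : ℚ, 0 < γ ∧
  ∀ B : M.J → ℚ, (∀ j, |B j - A j| < γ) → M.AmpQ B

def OfOPN : Prop := SAq → SOPN

/-- One family of sections that serves all cells along the segments. -/
def SREG : Prop := ∀ (f : Po 3) (M : Mod 3), M.OK f →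
  ∃ (Γ : Gn M) (H : M.J → ℚ) (T ε γ : ℚ) (Wl : Finset (Fm M.J)), 0 < T ∧ 0 < ε ∧ 0 < γ ∧
    Arr Wl (M.q M.aa) ∧ ∀ h : M.J → ℚ, (∀ j, |h j - H j| < γ) → M.AmpQ h ∧
      M.AmpQ (nu M + T • h) ∧ ∀ t : ℚ, -ε ≤ t → t ≤ T → Off Wl (nu M + t • h) →
        ∀ c, M.q c ∈ Cell Wl (nu M + t • h) → Γ.Reg c

def OfREG : Prop := StmtARR → StmtCOV → SBOX → SBas → SAq → SOPN → SREG

/-- The asymptotic value of a valuation is linear on cells and attained on fixed finite sets. -/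
def SVLP : Prop := AllM fun {N} f M => ∀ Γ : Gn M, ∃ Wl : Finset (Fm M.J), Arr Wl (M.q M.aa) ∧
  ∀ U : Finset (M.J → ℤ), ∃ (r : ℕ) (T : (M.J → ℤ) → Finset (KK N)), 0 < r ∧
    (∀ u, ∀ g ∈ T u, g ∈ M.H (r • u)) ∧ ∀ x, Off Wl x →
      (∃ (n : ℕ) (c : M.J → ℤ), 0 < n ∧ M.q c = (n : ℚ) • x ∧ Γ.Reg c) →
      ∀ v : DV (KK N), Ov v.O → ∃ y : Fm M.J, y (M.q M.aa) = -v.v (ip N f) ∧
        (∀ c, Γ.Reg c → ∀ s ∈ M.H c, s ≠ 0 → y (M.q c) ≤ v.v s) ∧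
        ∀ u ∈ U, M.q u ∈ Cell Wl x → ∃ g ∈ T u, g ≠ 0 ∧ (v.v g : ℚ) = y (M.q (r • u))

def OfVLP : Prop := StmtARR → SBas → SVLP

/-- On the cell `C` the linear map `P` gives the moving parts on the model `W`. -/
def Mov (M W : Mod N) (r : ℕ) (C : Set (M.J → ℚ)) (P : (M.J → ℚ) →ₗ[ℚ] (W.J → ℚ)) : Prop :=
  P (M.q M.aa) = W.q W.aa ∧ ∀ c, M.q c ∈ C →
    ∃ c', W.q c' = P (M.q (r • c)) ∧ W.Free c' ∧ W.H c' = M.H (r • c)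

/-- One model for all cells. -/
def SMOD : Prop := AllM fun {N} f M => ∀ Γ : Gn M, ∃ Wl0 : Finset (Fm M.J),
  Arr Wl0 (M.q M.aa) ∧ ∀ Wl : Finset (Fm M.J), Wl0 ⊆ Wl →
    ∃ (W : Mod N) (_ : Dom W M) (r : ℕ) (P : Set (M.J → ℚ) → (M.J → ℚ) →ₗ[ℚ] (W.J → ℚ)),
      W.OK f ∧ 0 < r ∧ ∀ x, Off Wl x → (∀ c, M.q c ∈ Cell Wl x → Γ.Reg c) →
        Mov M W r (Cell Wl x) (P (Cell Wl x))

def OfMOD : Prop := StmtCELL → SBas → SH → SDc → SB1 → SVLP → SMOD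

/-- Chambers along the segment from the log canonical divisor to the ample cone. -/
def SCH0 : Prop := ∀ (f : Po 3) (M : Mod 3), M.OK f →
  ∃ (W : Mod 3) (_ : Dom W M) (h : M.J → ℚ) (ε T : ℚ) (r : ℕ) (Wl : Finset (Fm M.J))
    (P : Set (M.J → ℚ) → (M.J → ℚ) →ₗ[ℚ] (W.J → ℚ)), W.OK f ∧ M.AmpQ h ∧ 0 < ε ∧ 0 < T ∧
    0 < r ∧ M.AmpQ (nu M + T • h) ∧ Arr Wl (M.q M.aa) ∧ (∀ w ∈ Wl, w h ≠ 0) ∧
    (∀ w ∈ Wl, ∀ w' ∈ Wl, ∀ t : ℚ, t ≠ 0 → w (nu M + t • h) = 0 → w' (nu M + t • h) = 0 →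
      ∃ s : ℚ, w' = s • w) ∧
    ∀ t : ℚ, -ε ≤ t → t ≤ T → Off Wl (nu M + t • h) →
      Mov M W r (Cell Wl (nu M + t • h)) (P (Cell Wl (nu M + t • h)))

theorem ch0 (hG : StmtGEN) (hR : SREG) (hM : SMOD) : SCH0 := by
  classical
  intro f M hf
  obtain ⟨Γ, H, T, ε, γ, W1, hT, hε, hγ, h1, hh⟩ := hR f M hf
  obtain ⟨W0, h0, hW⟩ := hM 3 f M hf Γ
  obtain ⟨W, D, r, P, hWf, hr, hP⟩ := hW (W0 ∪ W1) subset_union_left
  have ha : Arr (W0 ∪ W1) (M.q M.aa) := fun w hw => (mem_union.1 hw).elim (h0 w) (h1 w)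
  obtain ⟨h, g1, g2, g3⟩ := hG M.J (W0 ∪ W1) (nu M) H γ hγ fun w hw => (ha w hw).1
  obtain ⟨k1, k2, k3⟩ := hh h g1
  exact ⟨W, D, h, ε, T, r, W0 ∪ W1, P, hWf, k1, hε, hT, hr, k2, ha, g2, g3,
    fun t t1 t2 ho => hP _ ho fun c hc =>
      k3 t t1 t2 (ho.mono subset_union_right) c (Cell.mono subset_union_right _ hc)⟩

end

end Pool.Agent.MP_ee8c61_ag.N3.M3CH
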